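import Pool.Agent.Lib.MP_2e793b_nt.Iface

/-!
# MP_2e793b_nt, row DIG: the digits of a real number
-/

set_option autoImplicit false

namespace Pool.Agent.Lib.MP_2e793b_nt.H74

open Finset Filter Topology

theorem floor_mod (b : ℕ) (hb : 2 ≤ b) (x : ℝ) :
    ⌊x * b⌋ % (b : ℤ) = ⌊x * b⌋ - b * ⌊x⌋ := by
  have hb0 : (0 : ℝ) < b := by
    have : 0 < b := by omega
    exact_mod_cast this
  have h1 : (b : ℤ) * ⌊x⌋ ≤ ⌊x * b⌋ := by
    apply Int.le_floor.2
    push_cast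
    have := mul_le_mul_of_nonneg_left (Int.floor_le x) hb0.le
    linarith
  have h2 : ⌊x * b⌋ < (b : ℤ) * ⌊x⌋ + b := by
    apply Int.floor_lt.2
    push_cast
    have := mul_lt_mul_of_pos_left (Int.lt_floor_add_one x) hb0
    linarith
  have h3 : (⌊x * b⌋ - b * ⌊x⌋) % (b : ℤ) = ⌊x * b⌋ - b * ⌊x⌋ :=
    Int.emod_eq_of_lt (by linarith) (by linarith)
  rw [← h3]
  rw [Int.sub_mul_emod_self_left]

/-- (DIG) the digits of `ξ`. -/
theorem dig : DigStmt := by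
  intro b ξ hb
  have hb0 : (0 : ℝ) < b := by
    have : 0 < b := by omega
    exact_mod_cast this
  have hb1 : (1 : ℝ) < b := by
    have : 1 < b := by omega
    exact_mod_cast this
  have hbi : (0 : ℤ) < b := by omega
  rw [hasSum_iff_tendsto_nat_of_nonneg]
  · have hpart : ∀ N : ℕ, ∑ n ∈ range N,
        ((⌊ξ * (b : ℝ) ^ (n + 1)⌋ % (b : ℤ) : ℤ) : ℝ) / (b : ℝ) ^ (n + 1) =
        (⌊ξ * (b : ℝ) ^ N⌋ : ℝ) / (b : ℝ) ^ N - ⌊ξ⌋ := by
      intro N
      induction N with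
      | zero => simp
      | succ N ih =>
        rw [sum_range_succ, ih]
        have h1 : ξ * (b : ℝ) ^ (N + 1) = (ξ * (b : ℝ) ^ N) * b := by ring
        rw [h1, floor_mod b hb]
        push_cast
        field_simp
        ring
    simp only [hpart]
    apply Tendsto.sub_const
    have h0 : Tendsto (fun N : ℕ => ξ - (1 / (b : ℝ)) ^ N) atTop (𝓝 (ξ - 0)) := by
      apply Tendsto.const_sub
      apply tendsto_pow_atTop_nhds_zero_of_lt_one
      · positivity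
      · rw [div_lt_one hb0]; exact hb1
    rw [sub_zero] at h0
    refine tendsto_of_tendsto_of_tendsto_of_le_of_le h0 tendsto_const_nhds ?_ ?_
    · intro N
      have hp : (0 : ℝ) < (b : ℝ) ^ N := by positivity
      have h1 := Int.lt_floor_add_one (ξ * (b : ℝ) ^ N)
      show ξ - (1 / (b : ℝ)) ^ N ≤ (⌊ξ * (b : ℝ) ^ N⌋ : ℝ) / (b : ℝ) ^ N
      rw [le_div_iff₀ hp, sub_mul, div_pow, one_pow, one_div_mul_cancel hp.ne']
      linarith
    · intro N
      have hp : (0 : ℝ) < (b : ℝ) ^ N := by positivity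
      show (⌊ξ * (b : ℝ) ^ N⌋ : ℝ) / (b : ℝ) ^ N ≤ ξ
      rw [div_le_iff₀ hp]
      exact Int.floor_le _
  · intro n
    have h1 : 0 ≤ ⌊ξ * (b : ℝ) ^ (n + 1)⌋ % (b : ℤ) := Int.emod_nonneg _ hbi.ne'
    have h2 : (0 : ℝ) ≤ ((⌊ξ * (b : ℝ) ^ (n + 1)⌋ % (b : ℤ) : ℤ) : ℝ) := by exact_mod_cast h1
    positivity

end Pool.Agent.Lib.MP_2e793b_nt.H74
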